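import Mathlib

/-!
# Eisenstein series on hyperbolic cylinders: definitions

`X = Γ \ ℍ` with `Γ` the group generated by the dilation `z ↦ e^ℓ z`.
-/

set_option autoImplicit false

open Filter Topology Set UpperHalfPlane

namespace Pool.Agent.Lib.MP_619567_an

/-! ## Definitions used by the final statement -/

/-- `|z - w|^2 / (4 Im z Im w)`, which is `(cosh d(z,w) - 1) / 2`. -/
noncomputable def sig (z w : ℍ) : ℝ := ‖(z : ℂ) - (w : ℂ)‖ ^ 2 / (4 * z.im * w.im)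

/-- The Green function of `Δ - s(1-s)` on the hyperbolic plane (`Re s > 0`),
`(1/4π) ∫_0^1 (x(1-x))^(s-1) (x+σ)^(-s) dx` with `σ = sig z w`. -/
noncomputable def green (s : ℂ) (z w : ℍ) : ℂ :=
  (1 / (4 * (Real.pi : ℂ))) * ∫ x in (0 : ℝ)..1,
    ((x * (1 - x) : ℝ) : ℂ) ^ (s - 1) * ((x + sig z w : ℝ) : ℂ) ^ (-s)

/-- The resolvent kernel of `Γ \ ℍ`, lifted to `ℍ`: the sum of the Green function over `Γ`. -/
noncomputable def resolventKernel (Γ : Subgroup (Matrix.SpecialLinearGroup (Fin 2) ℝ)) (s : ℂ)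
    (z w : ℍ) : ℂ := ∑' g : Γ, green s z (g.1 • w)

/-- The dilation `z ↦ e^ℓ z`. -/
noncomputable def dil (ℓ : ℝ) : Matrix.SpecialLinearGroup (Fin 2) ℝ :=
  ⟨!![Real.exp (ℓ / 2), 0; 0, Real.exp (-(ℓ / 2))], by
    simp [Matrix.det_fin_two_of, ← Real.exp_add]⟩

/-- The cyclic group generated by `z ↦ e^ℓ z`; its quotient is the hyperbolic cylinder whose
closed geodesic has length `ℓ`. -/
noncomputable def cyl (ℓ : ℝ) : Subgroup (Matrix.SpecialLinearGroup (Fin 2) ℝ) :=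
  Subgroup.zpowers (dil ℓ)

/-- The point with funnel coordinates `(ρ, ξ)` (`0 < ρ ≤ 2`) in the right funnel (`e = 1`) or in
the left one (`e = -1`): `e^ξ (e (1 - ρ²/4) + iρ) / (1 + ρ²/4)`. -/
noncomputable def funnelPt (e ρ ξ : ℝ) : ℍ :=
  if h : 0 < ρ then
    ⟨⟨Real.exp ξ * (e * (1 - ρ ^ 2 / 4)) / (1 + ρ ^ 2 / 4), Real.exp ξ * ρ / (1 + ρ ^ 2 / 4)⟩, by
      show 0 < Real.exp ξ * ρ / (1 + ρ ^ 2 / 4)
      positivity⟩
  else UpperHalfPlane.I

/-- The complement of the nodal set of `F` (a `Γ`-invariant function on `ℍ`) in `Γ \ ℍ`. -/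
def nodalCompl (Γ : Subgroup (Matrix.SpecialLinearGroup (Fin 2) ℝ)) (F : ℍ → ℝ) :
    Set (Quotient (MulAction.orbitRel Γ ℍ)) :=
  (fun z => (Quotient.mk (MulAction.orbitRel Γ ℍ) z)) '' {z : ℍ | F z ≠ 0}

/-- `D` is a nodal domain of `F` on `Γ \ ℍ`: a connected component of the complement of the
nodal set. -/
def IsNodalDomain (Γ : Subgroup (Matrix.SpecialLinearGroup (Fin 2) ℝ)) (F : ℍ → ℝ)
    (D : Set (Quotient (MulAction.orbitRel Γ ℍ))) : Prop :=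
  ∃ x ∈ nodalCompl Γ F, D = connectedComponentIn (nodalCompl Γ F) x

/-! ## Auxiliary definitions -/

/-- The spectral parameter `1/2 + iλ`. -/
noncomputable def sv (lam : ℝ) : ℂ := 1 / 2 + lam * Complex.I

/-- Fermi coordinates: `e^θ (tanh t + i / cosh t)`. -/
noncomputable def fermi (t θ : ℝ) : ℍ :=
  ⟨⟨Real.exp θ * Real.sinh t / Real.cosh t, Real.exp θ / Real.cosh t⟩, by
    show 0 < Real.exp θ / Real.cosh t
    have := Real.cosh_pos t
    positivity⟩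

/-- `cosh t cosh u - sinh t > 0`. -/
noncomputable def Dk (t u : ℝ) : ℝ := Real.cosh t * Real.cosh u - Real.sinh t

/-- The Eisenstein series up to a constant: `Σ_k (2 / Dk t (θ - kℓ))^s`. -/
noncomputable def G (ℓ : ℝ) (s : ℂ) (t θ : ℝ) : ℂ :=
  ∑' k : ℤ, Complex.exp (-s * ((Real.log (Dk t (θ - k * ℓ) / 2) : ℝ) : ℂ))

/-- `(1+ε) cosh u + (1-ε) = (cosh u + 1) + ε (cosh u - 1)`. -/
noncomputable def W (ε u : ℂ) : ℂ := (1 + ε) * Complex.cosh u + (1 - ε)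

/-- `(4 / W ε u)^s`. -/
noncomputable def T (s ε u : ℂ) : ℂ := Complex.exp (-s * Complex.log (W ε u / 4))

/-- `Σ_k (4 / W ε (θ - kℓ))^s`. -/
noncomputable def A (ℓ : ℝ) (s ε θ : ℂ) : ℂ := ∑' k : ℤ, T s ε (θ - k * ℓ)

/-- The strip `ℝ × [0,H]`. -/
def strip (H : ℝ) : Set (ℝ × ℝ) := {p | 0 ≤ p.2 ∧ p.2 ≤ H}

/-- The component of `p` in `{f ≠ 0}` inside the strip. -/
def comp (f : ℝ × ℝ → ℝ) (H : ℝ) (p : ℝ × ℝ) : Set (ℝ × ℝ) :=
  connectedComponentIn (strip H ∩ {x | f x ≠ 0}) p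

/-- Bounded in the first coordinate. -/
def Bdd (C : Set (ℝ × ℝ)) : Prop := ∃ B : ℝ, ∀ x ∈ C, |x.1| ≤ B

/-- The horizontal strip `|Im z| < 1`. -/
def hstrip : Set ℂ := {z : ℂ | |z.im| < 1}

end Pool.Agent.Lib.MP_619567_an
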