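import Pool.Agent.Lib.MP_619567_an.Stm

set_option autoImplicit false

open Filter Topology Set UpperHalfPlane

namespace Pool.Agent.Lib.MP_619567_an

theorem fin_assembly (hrolle : S_rolle) (hdre : S_dre) (hnonflat : S_nonflat) (hdconv : S_dconv)
    (hzero : S_zero) (hbnd : S_bnd) (hmaj : S_maj) (htheta : S_theta) (heps : S_eps)
    (hgcont : S_gcont) (hgsym : S_gsym) (hga : S_ga) (hgnz : S_gnz) (hbeta : S_beta)
    (hintl : S_intl) (hanz : S_anz) (hord : S_ord) (halt : S_alt) (hcnt : S_cnt)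
    (hcross : S_cross) (hstrip : S_strip) (hcomp : S_comp) (htrap : S_trap) (hseg : S_seg)
    (htopo : S_topo) (hfer : S_fer) (hgrn : S_grn) (hlim : S_lim) (hmap : S_map) (hcpt : S_cpt)
    (hnod : S_nod) : S_final := by
  intro ℓ lam e ξ hℓ hlam he
  have hs : (1 / 2 + lam * Complex.I : ℂ) = sv lam := rfl
  set c : ℂ := Complex.betaIntegral (sv lam) (sv lam) / (4 * (Real.pi : ℂ)) with hc
  have hc0 : c ≠ 0 := by
    rw [hc]
    apply div_ne_zero (hbeta lam)
    have : (Real.pi : ℂ) ≠ 0 := by exact_mod_cast Real.pi_ne_zero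
    simp [this]
  obtain ⟨hf1, hf2, hf3, hf4, hf5, hf6⟩ := id hfer
  have hee : e * e = 1 := by rcases he with h | h <;> rw [h] <;> norm_num
  refine ⟨fun z => c * G ℓ (sv lam) (e * Real.arsinh (z.re / z.im)) (Real.log ‖(z : ℂ)‖ - ξ),
    ?_, ?_, ?_⟩
  · intro z
    have h1 := hlim hfer hgrn hmaj ℓ lam e (Real.arsinh (z.re / z.im)) (Real.log ‖(z : ℂ)‖) ξ hℓ he
    rw [hf2 z] at h1
    exact h1
  · intro g hg z
    obtain ⟨k, rfl⟩ := Subgroup.mem_zpowers_iff.1 hg
    have h1 : dil ℓ ^ k • z = fermi (Real.arsinh (z.re / z.im)) (Real.log ‖(z : ℂ)‖ + k * ℓ) := by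
      conv_lhs => rw [← hf2 z]
      exact hf1 _ _ _ _
    have h2 : ∀ (k : ℤ) (t θ : ℝ), G ℓ (sv lam) t (θ + k * ℓ) = G ℓ (sv lam) t θ := by
      intro k t
      have hper : Function.Periodic (G ℓ (sv lam) t) ℓ := fun θ => (hgsym ℓ (sv lam) t θ).2
      intro θ
      exact (hper.int_mul k) θ
    simp only
    rw [h1, hf3, hf4]
    congr 1
    have h3 : Real.log ‖(z : ℂ)‖ + k * ℓ - ξ = (Real.log ‖(z : ℂ)‖ - ξ) + k * ℓ := by ring
    rw [h3, h2]
  · have hcont := hgcont hmaj ℓ lam hℓ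
    have hkey := htopo hcross hstrip hcomp htrap hseg
      (fun p : ℝ × ℝ => (c * G ℓ (sv lam) p.1 p.2).re)
      (Complex.continuous_re.comp (continuous_const.mul hcont)) (ℓ / 2) (by positivity)
      (fun T0 => (halt hord heps hga hgnz hbnd hmaj ℓ lam hℓ hlam c hc0 T0).1)
      (fun T0 => (halt hord heps hga hgnz hbnd hmaj ℓ lam hℓ hlam c hc0 T0).2)
      (hcnt hzero hrolle hdre hnonflat hdconv htheta hbnd hmaj hanz hintl hbeta hga ℓ lam hℓ hlam
        c hc0)
    apply hnod hfer hmap hcpt ℓ e ξ hℓ he (fun p : ℝ × ℝ => (c * G ℓ (sv lam) p.1 p.2).re)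
      (Complex.continuous_re.comp (continuous_const.mul hcont))
      (fun t θ => by simp only; rw [(hgsym ℓ (sv lam) t θ).1])
      (fun t θ => by simp only; rw [(hgsym ℓ (sv lam) t θ).2]) hkey
    intro t θ
    simp only
    rw [hf3, hf4]

end Pool.Agent.Lib.MP_619567_an
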