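import Pool.Agent.Lib.MP_619567_an.Defs

/-!
Statements of the pieces, with complete proofs in words. Notation: `s = sv lam = 1/2 + i lam`.
-/

set_option autoImplicit false

open Filter Topology Set UpperHalfPlane

namespace Pool.Agent.Lib.MP_619567_an

/-! ## Part R: real and complex analysis -/

/-- ROLLE. Iterated Rolle theorem. Induction on `n`, statement for all `φ`, `Z`. `n = 0`: `Z` is
nonempty, take a point of it. `n+1`: sort `Z` as `z_0 < ... < z_{n+1}` (`Finset.orderEmbOfFin` or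
`Finset.sort`), Rolle (`exists_deriv_eq_zero`) gives `y_i` in `(z_i, z_{i+1})` with
`deriv φ y_i = 0`, `i = 0..n`; they are distinct and in `J` (order connected); apply the induction
hypothesis to `deriv φ` (smooth), `iteratedDeriv_succ'`. -/
def S_rolle : Prop := ∀ (n : ℕ) (φ : ℝ → ℝ), ContDiff ℝ (⊤ : ℕ∞) φ → ∀ (J : Set ℝ), J.OrdConnected →
  ∀ Z : Finset ℝ, (∀ z ∈ Z, z ∈ J ∧ φ z = 0) → n + 1 ≤ Z.card →
  ∃ y ∈ J, iteratedDeriv n φ y = 0

/-- DRE. For `h` holomorphic on an open `U` containing the real line the real function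
`y ↦ Re h(y)` is smooth and its derivatives are the real parts of the complex derivatives.
Induction on `n`: `iteratedDeriv_succ`, the function `x ↦ (iteratedDeriv n h x).re` has derivative
`(deriv (iteratedDeriv n h) x).re` (`HasDerivAt.comp_ofReal`, `HasDerivAt.real_of_complex`), all
iterated derivatives of `h` being differentiable on `U` (holomorphic). Smoothness: from
`contDiff_of_differentiable_iteratedDeriv` or from analyticity. -/
def S_dre : Prop := ∀ (U : Set ℂ) (h : ℂ → ℂ), IsOpen U → (∀ x : ℝ, (x : ℂ) ∈ U) →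
  DifferentiableOn ℂ h U →
  ContDiff ℝ (⊤ : ℕ∞) (fun y : ℝ => (h y).re) ∧
  ∀ (n : ℕ) (x : ℝ), iteratedDeriv n (fun y : ℝ => (h y).re) x = (iteratedDeriv n h x).re

/-- NONFLAT. If all `Re (h^(n)(x))` vanish at one real `x`, the Taylor series of `h` at `x`
(`DifferentiableOn.analyticAt`, `AnalyticAt.hasFPowerSeriesAt`, or
`Complex.hasSum_taylorSeries_on_ball`) has purely imaginary coefficients, so `Re h = 0` on the real
points near `x`. The function `y ↦ Re h(y)` on `ℝ` is real analytic, so it vanishes on all of `ℝ`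
(`AnalyticOnNhd.eqOn_zero_of_preconnected_of_eventuallyEq_zero` with `univ`), contradiction. -/
def S_nonflat : Prop := ∀ (U : Set ℂ) (h : ℂ → ℂ), IsOpen U → (∀ x : ℝ, (x : ℂ) ∈ U) →
  DifferentiableOn ℂ h U → (∃ x : ℝ, (h x).re ≠ 0) →
  ∀ x : ℝ, ∃ n : ℕ, (iteratedDeriv n h x).re ≠ 0

/-- DCONV. Iterate `TendstoLocallyUniformlyOn.deriv` (induction on `n`, with the differentiability
of all iterated derivatives on `U`; `iteratedDeriv_succ`). -/
def S_dconv : Prop := ∀ (U : Set ℂ) (h : ℕ → ℂ → ℂ) (g : ℂ → ℂ), IsOpen U →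
  (∀ j, DifferentiableOn ℂ (h j) U) → TendstoLocallyUniformlyOn h g atTop U →
  ∀ n : ℕ, TendstoLocallyUniformlyOn (fun j => iteratedDeriv n (h j)) (iteratedDeriv n g) atTop U

/-- ZERO. Bounded number of zeros along a convergent sequence. `g` is holomorphic on `U`
(`TendstoLocallyUniformlyOn.differentiableOn`). For `x ∈ [a,b]` NONFLAT gives `n` with
`Re g^(n)(x) ≠ 0`; by continuity of `g^(n)` at `x` and DCONV there are `δ > 0` and `J` with
`Re (h_j^(n)(y)) ≠ 0` for all real `y ∈ (x-δ,x+δ)`, `j ≥ J`. By ROLLE (with DRE) `Re h_j` has at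
most `n` zeros in `(x-δ,x+δ)` for `j ≥ J` (any `Finset` of zeros has card `≤ n`, so encard `≤ n`:
`Set.encard_le_coe_iff` or by contradiction with a finset of size `n+1`,
`Set.exists_subset_encard_eq`). Cover `[a,b]` by finitely many of these intervals and add
(`IsCompact.elim_nhds_subcover`; `Set.encard_iUnion_le` or induction on the finset). -/
def S_zero : Prop := S_rolle → S_dre → S_nonflat → S_dconv →
  ∀ (U : Set ℂ) (h : ℕ → ℂ → ℂ) (g : ℂ → ℂ), IsOpen U → (∀ x : ℝ, (x : ℂ) ∈ U) →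
  (∀ j, DifferentiableOn ℂ (h j) U) → TendstoLocallyUniformlyOn h g atTop U →
  (∃ x : ℝ, (g x).re ≠ 0) → ∀ a b : ℝ, ∃ N : ℕ, ∀ᶠ j in atTop,
    {x : ℝ | x ∈ Icc a b ∧ (h j x).re = 0}.encard ≤ N

/-! ## Part A: the functions A and G -/

/-- BND. `‖exp(-s log(w/4))‖ = exp(-(1/2) log|w/4| + lam arg(w/4)) ≤ |w/4|^(-1/2) e^(π|lam|)` and
`|w| ≥ Re w ≥ r`. (`Complex.norm_exp`, `Complex.log_re`, `Complex.log_im`,
`Complex.abs_arg_le_pi`, `Real.exp_log`, `Real.sqrt_eq_rpow`.) -/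
def S_bnd : Prop := ∀ (lam r : ℝ) (w : ℂ), 0 < r → r ≤ w.re →
  ‖Complex.exp (-sv lam * Complex.log (w / 4))‖ ≤ 2 * Real.exp (Real.pi * |lam|) / Real.sqrt r

/-- MAJ. `cosh y ≥ e^|y| / 2` and `|x - kℓ| ≥ |k|ℓ - B` give the first claim; the second is a
geometric series over `ℤ` (`summable_int_iff_summable_nat_and_neg` or
`Summable.of_nat_of_neg`). -/
def S_maj : Prop := ∀ ℓ : ℝ, 0 < ℓ → ∀ B : ℝ,
  (∀ (x : ℝ) (k : ℤ), |x| ≤ B →
    1 / Real.sqrt (Real.cosh (x - k * ℓ)) ≤ 2 * Real.exp (B / 2) * Real.exp (-(ℓ / 2) * |(k : ℝ)|)) ∧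
  Summable (fun k : ℤ => 2 * Real.exp (B / 2) * Real.exp (-(ℓ / 2) * |(k : ℝ)|))

/-- THETA. For `u = a + ib` with `|b| < 1` and real `ε ∈ [0,1]`:
`Re W(ε,u) = (1+ε) cosh a cos b + (1-ε) ≥ cos 1 * cosh a > 0` (`Complex.cosh_add`,
`Complex.cosh_mul_I`; `cos b ≥ cos 1 > 0`). By BND each term is at most
`C / sqrt (cosh a)`, with `a = Re θ - kℓ`, and MAJ gives a summable majorant, uniform for
`|Re θ| ≤ B`. The terms are holomorphic in `θ ∈ hstrip` (`W/4` is in the slit plane), so each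
`A ℓ s ε` is holomorphic on `hstrip` (`differentiableOn_tsum_of_summable_norm` on the open sets
`{θ ∈ hstrip, |Re θ| < B}`, differentiability being local). Locally uniform convergence: on a
compact `K ⊆ hstrip` given `η`, choose a finite `F ⊆ ℤ` such that the tail of the majorant outside
`F` is `< η/3`; each term `k ∈ F` converges uniformly on `K` as `ε_j → 0` because
`(ε,θ) ↦ T s ε (θ-kℓ)` is continuous on the compact `[0,1] × K` (Heine-Cantor). Alternatively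
prove that `(ε,θ) ↦ A ℓ s ε θ` is continuous on `[0,1] × hstrip` (`continuousOn_tsum`) and use
`tendstoLocallyUniformlyOn_iff_forall_isCompact` with Heine-Cantor, or
`ContinuousOn.tendsto_locally_uniformly`-type lemmas. -/
def S_theta : Prop := S_bnd → S_maj →
  ∀ (ℓ lam : ℝ), 0 < ℓ → ∀ ε : ℕ → ℝ, (∀ j, 0 ≤ ε j ∧ ε j ≤ 1) → Tendsto ε atTop (𝓝 0) →
  (∀ j, DifferentiableOn ℂ (A ℓ (sv lam) (ε j)) hstrip) ∧
  TendstoLocallyUniformlyOn (fun j => A ℓ (sv lam) (ε j)) (A ℓ (sv lam) 0) atTop hstrip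

/-- EPS. For real `u` and `Re ε > -1 + η` (`0 < η < 1`), `Re W(ε,u) = (cosh u + 1) + Re ε (cosh u - 1)
≥ η cosh u > 0`. Terms holomorphic in `ε`, majorant from BND and MAJ (`x = 0`, `B = 0`), so the sum
is holomorphic on `{Re ε > -1+η}` for every `η` (`differentiableOn_tsum_of_summable_norm`);
differentiability is local. -/
def S_eps : Prop := S_bnd → S_maj → ∀ (ℓ lam : ℝ), 0 < ℓ →
  DifferentiableOn ℂ (fun ε : ℂ => A ℓ (sv lam) ε 0) {ε : ℂ | -1 < ε.re}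

/-- GCONT. `Dk t u ≥ e^(-|t|) cosh u` (`cosh t cosh u - sinh t ≥ cosh u (cosh t - |sinh t|)` and
`cosh t - |sinh t| = e^(-|t|)`), so it is positive, terms are continuous, and the norm of the
`k`-th term is `(Dk/2)^(-1/2) ≤ sqrt 2 e^(|t|/2) / sqrt (cosh (θ-kℓ))`, with a summable majorant on
`|t| ≤ B`, `|θ| ≤ B` by MAJ (`continuous_tsum` locally: `continuousOn_tsum` on the open boxes). -/
def S_gcont : Prop := S_maj → ∀ (ℓ lam : ℝ), 0 < ℓ →
  Continuous (fun p : ℝ × ℝ => G ℓ (sv lam) p.1 p.2)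

/-- GSYM. Reindex by `k ↦ -k` (`cosh` is even) and by `k ↦ k + 1` (`Equiv.tsum_eq`). -/
def S_gsym : Prop := ∀ (ℓ : ℝ) (s : ℂ) (t θ : ℝ),
  G ℓ s t (-θ) = G ℓ s t θ ∧ G ℓ s t (θ + ℓ) = G ℓ s t θ

/-- GA. `Dk t u / 2 = e^(-t) * (W (e^(2t)) u / 4)` for real `u`, where `W (e^(2t)) u` is the real
number `(cosh u + 1) + e^(2t) (cosh u - 1) > 0`; so `log (Dk/2) = -t + log (W/4)` and
`exp(-s log(Dk/2)) = e^(st) exp(-s log(W/4))`; `tsum_mul_left`. -/
def S_ga : Prop := ∀ (ℓ : ℝ) (s : ℂ) (t θ : ℝ),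
  G ℓ s t θ = Complex.exp (s * t) * A ℓ s ((Real.exp (2 * t) : ℝ) : ℂ) (θ : ℂ)

/-- GNZ. `G` is nonzero at `(t, 0)` for large `t`: the term `k = 0` has norm
`(e^(-t)/2)^(-1/2) = sqrt 2 e^(t/2)`; for `k ≠ 0`, `Dk t (kℓ) ≥ e^t (cosh(kℓ) - 1)/2`, so the norm
of the term is at most `2 e^(-t/2) / sqrt(cosh(kℓ) - 1)`, and `Σ_{k≠0} 1/sqrt(cosh(kℓ)-1) < ∞`
(`cosh(kℓ) - 1 ≥ c cosh(kℓ)` with `c = 1 - 1/cosh ℓ`, MAJ). Hence the sum of the others tends to
`0` while the term `k = 0` tends to infinity. -/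
def S_gnz : Prop := S_maj → ∀ (ℓ lam : ℝ), 0 < ℓ → ∃ t : ℝ, G ℓ (sv lam) t 0 ≠ 0

/-- BETA. `Γ(s)^2 = Γ(2s) B(s,s)` (`Complex.Gamma_mul_Gamma_eq_betaIntegral`) and `Γ(s) ≠ 0` for
`Re s > 0` (`Complex.Gamma_ne_zero_of_re_pos`). -/
def S_beta : Prop := ∀ lam : ℝ, Complex.betaIntegral (sv lam) (sv lam) ≠ 0

/-- INTL. The integral over the line of `T s 0 u = (2 / cosh²(u/2))^s`. With
`x = 1/(1+e^(-u)) ∈ (0,1)`: `x(1-x) = 1/(4 cosh²(u/2)) = 1/(2 (cosh u + 1))`, `dx = x(1-x) du`,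
`W 0 u / 4 = (cosh u + 1)/4 = 1/(8 x(1-x))`, so `T s 0 u = (8 x(1-x))^s` and
`∫_ℝ T s 0 u du = ∫_0^1 (8x(1-x))^s / (x(1-x)) dx = 8^s B(s,s)`
(`MeasureTheory.integral_image_eq_integral_abs_deriv_smul` with `f u = 1/(1+e^(-u))`, `f '' univ =
Ioo 0 1`; `Complex.betaIntegral` is `∫ x in 0..1, x^(s-1) (1-x)^(s-1)`). Integrability of
`T s 0` on the line: norm `≤ C / sqrt(cosh u + 1)`, or from the same substitution
(`MeasureTheory.integrableOn_image_iff_integrableOn_abs_deriv_smul`) and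
`Complex.betaIntegral_convergent`. -/
def S_intl : Prop := ∀ lam : ℝ,
  MeasureTheory.Integrable (fun u : ℝ => T (sv lam) 0 (u : ℂ)) ∧
  (∫ u : ℝ, T (sv lam) 0 (u : ℂ)) =
    Complex.exp (sv lam * (Real.log 8 : ℝ)) * Complex.betaIntegral (sv lam) (sv lam)

/-- ANZ. Otherwise `A ℓ s 0 x = 0` for all real `x`; integrate over `(0, ℓ]`:
`0 = Σ_k ∫_0^ℓ T s 0 (x - kℓ) dx = ∫_ℝ T s 0 u du` (`MeasureTheory.hasSum_integral_of_summable_integral_norm`
or `MeasureTheory.integral_tsum`, and `isAddFundamentalDomain_Ioc` with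
`MeasureTheory.IsAddFundamentalDomain.integral_eq_tsum`, or `MeasureTheory.integral_iUnion` for the
disjoint intervals), which is not `0` by INTL and BETA. -/
def S_anz : Prop := S_intl → S_beta → ∀ (ℓ lam : ℝ), 0 < ℓ → ∃ x : ℝ, A ℓ (sv lam) 0 (x : ℂ) ≠ 0

/-- ORD. `φ(ε) = A ℓ s ε 0` is analytic on the half plane `Re ε > -1` (open, convex). It is not
identically zero there: by GNZ and GA `φ(e^(2t)) ≠ 0` for some real `t`. So it is not eventually
zero at `0` (`AnalyticOnNhd.eqOn_zero_of_preconnected_of_eventuallyEq_zero`) and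
`φ(ε) = ε^m g(ε)` near `0`, `g` analytic at `0`, `g(0) = a ≠ 0`
(`AnalyticAt.exists_eventuallyEq_pow_smul_nonzero_iff`). -/
def S_ord : Prop := S_eps → S_ga → S_gnz → S_bnd → S_maj → ∀ (ℓ lam : ℝ), 0 < ℓ →
  ∃ (m : ℕ) (a : ℂ), a ≠ 0 ∧
    Tendsto (fun ε : ℝ => A ℓ (sv lam) (ε : ℂ) 0 / (ε : ℂ) ^ m) (𝓝[>] 0) (𝓝 a)

/-- ALT. Let `m, a` be as in ORD. Put `t_j = (-arg(ca) - 2πj)/lam → -∞`, so
`c a e^(i lam t_j) = |ca|`. By GA `c G(t_j,0) = e^(t_j/2) e^(2m t_j) * (c e^(i lam t_j) *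
A(e^(2t_j),0)/(e^(2t_j))^m)`, the last bracket tends to `|ca| > 0` (`e^(2t_j) → 0+`), so its real
part is positive for large `j`. For the negative sign use `t_j = (π - arg(ca) - 2πj)/lam`. -/
def S_alt : Prop := S_ord → S_eps → S_ga → S_gnz → S_bnd → S_maj →
  ∀ (ℓ lam : ℝ), 0 < ℓ → 0 < lam → ∀ c : ℂ, c ≠ 0 → ∀ T0 : ℝ,
    (∃ t < T0, 0 < (c * G ℓ (sv lam) t 0).re) ∧ (∃ t < T0, (c * G ℓ (sv lam) t 0).re < 0)

/-- CNT. By ANZ there is a real `x` with `b = A ℓ s 0 x ≠ 0`. Let `ω = conj b / |b|`, so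
`Re (ω b) = |b| ≠ 0`, and `t_j = (arg ω - arg c - 2πj)/lam → -∞` (`j` large enough that `t_j ≤ 0`;
shift the sequence), so `c e^(i lam t_j) = |c| ω`. By GA `Re (c G(t_j,θ)) = |c| e^(t_j/2)
Re (ω A(e^(2t_j),θ))`. Apply ZERO with `U = hstrip`, `h_j = ω A(ε_j,·)`, `g = ω A(0,·)`,
`ε_j = e^(2t_j) ∈ [0,1]` (THETA), `[a,b] = [0, ℓ/2]`: bounded number of zeros for all large `j`. -/
def S_cnt : Prop := S_zero → S_rolle → S_dre → S_nonflat → S_dconv → S_theta → S_bnd → S_maj →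
  S_anz → S_intl → S_beta → S_ga →
  ∀ (ℓ lam : ℝ), 0 < ℓ → 0 < lam → ∀ c : ℂ, c ≠ 0 → ∃ N : ℕ, ∀ T0 : ℝ, ∃ t < T0,
    {θ : ℝ | θ ∈ Icc 0 (ℓ / 2) ∧ (c * G ℓ (sv lam) t θ).re = 0}.encard ≤ N

/-! ## Part T: plane topology -/

/-- CROSS. Poincaré-Miranda (`Pool.Agent.Lib.MP_c4f91a_co.miranda`, cube `[-1,1]^2` in
`Fin 2 → ℝ`) for `Φ(v) = (P((v 0 + 1)/2).1 - Q((v 1 + 1)/2).1, Q((v 1 + 1)/2).2 - P((v 0+1)/2).2)`
(paths extended by `Path.extend`, or `Set.projIcc`). At `v 0 = -1` the first coordinate is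
`a.1 - Q.1 < 0`, at `v 0 = 1` it is `b.1 - Q.1 > 0`; at `v 1 = -1` the second is `c.2 - P.2 < 0`,
at `v 1 = 1` it is `d.2 - P.2 > 0`. A zero is a common point. -/
def S_cross : Prop := ∀ (a b c d : ℝ × ℝ) (P : Path a b) (Q : Path c d),
  (∀ x ∈ range Q, a.1 < x.1 ∧ x.1 < b.1) → (∀ x ∈ range P, c.2 < x.2 ∧ x.2 < d.2) →
  (range P ∩ range Q).Nonempty

/-- STRIP. Let `L` bound `|x.1|` and `x.2` on both ranges (compact) and `|a|, |b|, |c|`, strictly.
Extend `P` to `P'`: straight segments `(-L,-1) → (a,-1) → (a,0)`, then `P`, then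
`(b,0) → (b,-1) → (L,-1)`; extend `Q` to `Q'`: `(c,-2) → (c,0)`, then `Q`, then
`q → (q.1, L+1)`. CROSS applies to `P'`, `Q'` and gives a common point `w`. Cases: the parts of
`P'` at height `-1` have `w.1 ≤ a` or `w.1 ≥ b`, so they miss the vertical `w.1 = c` and the rest
of `Q'` (where `w.2 ≥ 0`). The verticals at `a` and `b` (`w.2 ≤ 0`) miss the vertical at `c`; they
can meet `Q` only at height `0`, that is in `(a,0)` or `(b,0)`, which are in `range P`; they miss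
the vertical above `q` since `q.1` is not the first coordinate of a point of `P`. `P` meets the
vertical at `c` only at `(c,0) ∈ range Q`, and misses the vertical above `q`. -/
def S_strip : Prop := S_cross → ∀ (a b c : ℝ) (q : ℝ × ℝ), a < c → c < b →
  ∀ (P : Path ((a, 0) : ℝ × ℝ) (b, 0)) (Q : Path ((c, 0) : ℝ × ℝ) q),
  (∀ x ∈ range P, 0 ≤ x.2) → (∀ x ∈ range Q, 0 ≤ x.2) → (∀ x ∈ range P, x.1 ≠ q.1) →
  (range P ∩ range Q).Nonempty

/-- COMP. (1) The strip is convex, so locally path connected as a subspace, and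
`strip H ∩ {f ≠ 0}` is relatively open in it; so its components are path connected. (For instance:
the set of points `y` of the component joined to `x` inside the component is relatively open and
closed, small balls intersected with the strip being convex; or use `LocPathConnectedSpace` of
the subtype `strip H` and of its open subset.) (2) `f` has no zero on the component, which is
preconnected, so it has constant sign (`IsPreconnected.intermediate_value` or `image` of `f`).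
(3) is `connectedComponentIn_eq`. (4) `connectedComponentIn_subset`,
`mem_connectedComponentIn`. -/
def S_comp : Prop := ∀ (f : ℝ × ℝ → ℝ), Continuous f → ∀ (H : ℝ) (p : ℝ × ℝ),
  (∀ x ∈ comp f H p, ∀ y ∈ comp f H p, JoinedIn (comp f H p) x y) ∧
  (∀ x ∈ comp f H p, ∀ y ∈ comp f H p, 0 < f x * f y) ∧
  (∀ x ∈ comp f H p, comp f H x = comp f H p) ∧
  (comp f H p ⊆ strip H ∩ {x | f x ≠ 0}) ∧
  (p ∈ strip H → f p ≠ 0 → p ∈ comp f H p)

/-- TRAP. Let `P` be a path in the component from `(a,0)` to `(b,0)` (COMP 1); its range is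
compact, so `|x.1| ≤ B` on it. Suppose `comp f H (c,0)` is not bounded: there is `q` in it with
`|q.1| > B`; let `Q` be a path from `(c,0)` to `q` in `comp f H (c,0)`. STRIP gives a common point
`w` of both components, so they are equal (COMP 3) and `(c,0) ∈ comp f H (a,0)`,
contradiction. -/
def S_trap : Prop := S_cross → S_strip → S_comp → ∀ (f : ℝ × ℝ → ℝ), Continuous f → ∀ H : ℝ, 0 < H →
  ∀ a b c : ℝ, a < c → c < b → ((a, 0) : ℝ × ℝ) ∈ comp f H (a, 0) →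
  ((b, 0) : ℝ × ℝ) ∈ comp f H (a, 0) → f (c, 0) ≠ 0 → ((c, 0) : ℝ × ℝ) ∉ comp f H (a, 0) →
  Bdd (comp f H (c, 0))

/-- SEG. The `y i` are distinct (COMP 3: a common point would make the components equal).
Sort them; between two consecutive ones there is a zero of `θ ↦ f(t,θ)`, else the segment
`{t} × [y, y']` would be a connected subset of `strip H ∩ {f ≠ 0}` meeting both components, which
would then be equal (`IsPreconnected.subset_connectedComponentIn`). The zeros obtained are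
distinct and in `[0,H]`, so `n - 1 ≤ N`. -/
def S_seg : Prop := S_comp → ∀ (f : ℝ × ℝ → ℝ), Continuous f → ∀ H : ℝ, 0 < H → ∀ (t : ℝ) (N : ℕ),
  {θ : ℝ | θ ∈ Icc 0 H ∧ f (t, θ) = 0}.encard ≤ N →
  ∀ (n : ℕ) (p : Fin n → ℝ × ℝ) (y : Fin n → ℝ), (∀ i, ((t, y i) : ℝ × ℝ) ∈ comp f H (p i)) →
  (∀ i j, i ≠ j → comp f H (p i) ≠ comp f H (p j)) → n ≤ N + 1

/-- TOPO. Suppose not: there is `T1` such that for `t < T1` with `f(t,0) ≠ 0` the component of
`(t,0)` is unbounded. Let `N` be as in the third hypothesis, `t* < T1` a level with at most `N`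
zeros, `M = 2N+4`, and `t_0 > t_1 > ... > t_(M-1)` all `< t*` with `f(t_i,0) > 0` for `i` even and
`< 0` for `i` odd. The components `C_i` of `(t_i,0)` are pairwise distinct: for `i < j` of
different parity by the signs (COMP 2); of the same parity, if `C_i = C_j` then `t_j < t_(i+1) <
t_i` and `(t_(i+1),0)` is not in `C_j = C_i` by its sign, so TRAP (a = t_j, b = t_i, c = t_(i+1))
bounds `C_(i+1)`, contradiction. As `C_i` is unbounded it contains points with `x.1 > t*` or it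
contains points with `x.1` smaller than any given number. Let `t** < t_(M-1)` be a level with at
most `N` zeros. So each `C_i` contains a point with `x.1 > t*` or a point with `x.1 < t**`; one of
the two happens for at least `N+2` indices. `C_i` is preconnected and contains `(t_i,0)` with
`t** < t_i < t*`, so it contains a point with `x.1 = t*` (resp. `t**`). SEG gives `N+2 ≤ N+1`,
contradiction. -/
def S_topo : Prop := S_cross → S_strip → S_comp → S_trap → S_seg →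
  ∀ (f : ℝ × ℝ → ℝ), Continuous f → ∀ H : ℝ, 0 < H →
  (∀ T0 : ℝ, ∃ t < T0, 0 < f (t, 0)) → (∀ T0 : ℝ, ∃ t < T0, f (t, 0) < 0) →
  (∃ N : ℕ, ∀ T0 : ℝ, ∃ t < T0, {θ : ℝ | θ ∈ Icc 0 H ∧ f (t, θ) = 0}.encard ≤ N) →
  ∀ T0 : ℝ, ∃ t < T0, f (t, 0) ≠ 0 ∧ Bdd (comp f H (t, 0))

/-! ## Part Q: the quotient and the Eisenstein series -/

/-- FER. Fermi coordinates: `Re/Im = sinh t`, `|z| = e^θ`. (1) the dilation adds `ℓ` to `θ`
(`UpperHalfPlane.specialLinearGroup_apply`: `(e^(ℓ/2) z)/(e^(-ℓ/2))`), also for integer powers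
(induction on `k`, or `zpow`: `dil ℓ ^ k = dil (k ℓ)`); (2) every point has Fermi coordinates
`t = arsinh(Re z/Im z)`, `θ = log|z|`; (3) recover `t`; (4) recover `θ`; (5) the funnel point:
`t = e log(2/ρ)`, so for `ρ > 0` `funnelPt e ρ ξ = fermi (e * log(2/ρ)) ξ`;
(6) `4 σ + 2 = 2 (cosh t cosh t' cosh(θ-θ') - sinh t sinh t')`. -/
def S_fer : Prop :=
  (∀ (ℓ t θ : ℝ) (k : ℤ), (dil ℓ ^ k) • fermi t θ = fermi t (θ + k * ℓ)) ∧
  (∀ z : ℍ, fermi (Real.arsinh (z.re / z.im)) (Real.log ‖(z : ℂ)‖) = z) ∧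
  (∀ t θ : ℝ, Real.arsinh ((fermi t θ).re / (fermi t θ).im) = t) ∧
  (∀ t θ : ℝ, Real.log ‖(fermi t θ : ℂ)‖ = θ) ∧
  (∀ e ρ ξ : ℝ, (e = 1 ∨ e = -1) → 0 < ρ → funnelPt e ρ ξ = fermi (e * Real.log (2 / ρ)) ξ) ∧
  (∀ t θ t' θ' : ℝ, sig (fermi t θ) (fermi t' θ') =
    (Real.cosh t * Real.cosh t' * Real.cosh (θ - θ') - Real.sinh t * Real.sinh t' - 1) / 2)

/-- GRN. Limit of one Green function, with a bound. Let `R(ρ) = ρ * sig (fermi t θ) (funnelPt e ρ ξ)`,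
by FER `R(ρ) = ((1+ρ²/4) cosh t cosh u - e (1-ρ²/4) sinh t - ρ)/2` with `u = θ - ξ` (for
`t' = e log(2/ρ)`: `ρ cosh t' = 1 + ρ²/4`, `ρ sinh t' = e (1 - ρ²/4)`), which tends to
`Dk (e t) u / 2` as `ρ → 0+`. For `0 < ρ ≤ e^(-|t|)/2`, `ρ ≤ 1`:
`R(ρ) ≥ (e^(-|t|) cosh u - ρ)/2 ≥ e^(-|t|) cosh u / 4 > 0`. Now for `x ∈ (0,1)`
`ρ^(-s) (x+σ)^(-s) = (ρx + R(ρ))^(-s)` (positive reals, `Complex.ofReal_cpow`/
`Complex.mul_cpow_ofReal_nonneg`), with norm `(ρx+R)^(-1/2) ≤ R^(-1/2)`, and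
`|(x(1-x))^(s-1)| = (x(1-x))^(-1/2)`, integrable on `(0,1)` (`Complex.betaIntegral_convergent`).
(1) dominated convergence (`intervalIntegral.tendsto_integral_filter_of_dominated_convergence`)
gives the limit `(1/4π) B(s,s) (Dk/2)^(-s)` and `(Dk/2)^(-s) = exp(-s log(Dk/2))`; note
`∫_0^1 (x(1-x))^(s-1) dx = betaIntegral s s`. (2) the bound: norm
`≤ (1/4π) ∫ (x(1-x))^(-1/2) * R^(-1/2) ≤ C / sqrt (cosh u)`, `C` depending on `t, lam` only. -/
def S_grn : Prop := S_fer → ∀ (lam e t : ℝ), (e = 1 ∨ e = -1) →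
  (∀ θ ξ : ℝ, Tendsto (fun ρ : ℝ => (ρ : ℂ) ^ (-sv lam) * green (sv lam) (fermi t θ) (funnelPt e ρ ξ))
    (𝓝[>] 0) (𝓝 (Complex.betaIntegral (sv lam) (sv lam) / (4 * (Real.pi : ℂ)) *
      Complex.exp (-sv lam * ((Real.log (Dk (e * t) (θ - ξ) / 2) : ℝ) : ℂ))))) ∧
  (∃ (C δ : ℝ), 0 < δ ∧ ∀ θ ξ ρ : ℝ, 0 < ρ → ρ < δ →
    ‖(ρ : ℂ) ^ (-sv lam) * green (sv lam) (fermi t θ) (funnelPt e ρ ξ)‖ ≤
      C / Real.sqrt (Real.cosh (θ - ξ)))

/-- LIM. `cyl ℓ` is infinite cyclic (`ℓ > 0`), `k ↦ dil ℓ ^ k` is a bijection `ℤ → cyl ℓ`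
(`Subgroup.zpowers`; injective since `dil ℓ ^ k` moves `fermi 0 0` to `fermi 0 (kℓ)`), so
`resolventKernel (cyl ℓ) s z w = Σ_k green s z (dil ℓ ^ k • w)`. With `w = funnelPt e ρ ξ =
fermi (e log(2/ρ)) ξ`, `dil ℓ ^ k • w = funnelPt e ρ (ξ + kℓ)` (FER). Multiply by `ρ^(-s)` and use
dominated convergence for series (`tendsto_tsum_of_dominated_convergence`) with GRN and the
majorant MAJ (`|θ - ξ| ≤ B`). The limit is
`B(s,s)/(4π) Σ_k exp(-s log(Dk (e t) (θ-ξ-kℓ)/2)) = B(s,s)/(4π) G ℓ s (e t) (θ-ξ)`. -/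
def S_lim : Prop := S_fer → S_grn → S_maj → ∀ (ℓ lam e t θ ξ : ℝ), 0 < ℓ → (e = 1 ∨ e = -1) →
  Tendsto (fun ρ : ℝ => (ρ : ℂ) ^ (-sv lam) *
    resolventKernel (cyl ℓ) (sv lam) (fermi t θ) (funnelPt e ρ ξ)) (𝓝[>] 0)
    (𝓝 (Complex.betaIntegral (sv lam) (sv lam) / (4 * (Real.pi : ℂ)) *
      G ℓ (sv lam) (e * t) (θ - ξ)))

/-- MAP. The folded coordinates. For `z : ℍ` put `φ z = (e * arsinh(Re z/Im z),
‖((log|z| - ξ : ℝ) : AddCircle ℓ)‖)`. (1) It is continuous (`Complex` norm, log, arsinh;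
`AddCircle.coe` and norm are continuous). (2) It is `cyl ℓ`-invariant (FER: the dilation adds a
multiple of `ℓ` to `log|z|`), so it descends to a continuous map on the quotient
(`Quotient.lift`, `Continuous.quotient_lift`). (3) Its second coordinate is in `[0, ℓ/2]`
(`AddCircle.norm_le_half_period`). (4) If `f(t,·)` is even and `ℓ`-periodic then
`f(t, ‖(θ : AddCircle ℓ)‖) = f(t, θ)` because the norm is `|θ - round(θ/ℓ) ℓ|`
(`AddCircle.norm_eq`). -/
def S_map : Prop := S_fer → ∀ (ℓ e ξ : ℝ), 0 < ℓ → (e = 1 ∨ e = -1) →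
  ∃ φ : Quotient (MulAction.orbitRel (cyl ℓ) ℍ) → ℝ × ℝ, Continuous φ ∧
    (∀ t θ : ℝ, φ (Quotient.mk (MulAction.orbitRel (cyl ℓ) ℍ) (fermi t θ)) =
      (e * t, ‖((θ - ξ : ℝ) : AddCircle ℓ)‖)) ∧
    (∀ x, φ x ∈ strip (ℓ / 2)) ∧
    (∀ f : ℝ × ℝ → ℝ, (∀ t θ, f (t, -θ) = f (t, θ)) → (∀ t θ, f (t, θ + ℓ) = f (t, θ)) →
      ∀ t θ, f (t, ‖((θ : ℝ) : AddCircle ℓ)‖) = f (t, θ))

/-- CPT. A subset of the quotient on which the first folded coordinate is bounded has compact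
closure: it is contained in the image `K` of the compact set
`{fermi t θ : |t| ≤ B, ξ ≤ θ ≤ ξ + ℓ}` (FER, every point of the quotient has a representative with
`θ ∈ [ξ, ξ+ℓ]`), `K` is compact; the set `{x : |(φ x).1| ≤ B}` is closed, contained in `K`, and
contains the closure. `fermi` is continuous as a function of two variables. -/
def S_cpt : Prop := S_fer → ∀ (ℓ e ξ B : ℝ), 0 < ℓ → (e = 1 ∨ e = -1) →
  ∀ φ : Quotient (MulAction.orbitRel (cyl ℓ) ℍ) → ℝ × ℝ, Continuous φ →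
    (∀ t θ : ℝ, φ (Quotient.mk (MulAction.orbitRel (cyl ℓ) ℍ) (fermi t θ)) =
      (e * t, ‖((θ - ξ : ℝ) : AddCircle ℓ)‖)) →
  ∀ D : Set (Quotient (MulAction.orbitRel (cyl ℓ) ℍ)), (∀ x ∈ D, |(φ x).1| ≤ B) →
    IsCompact (closure D)

/-- NOD. Let `X` be the quotient, `N = nodalCompl (cyl ℓ) F` and `φ` from MAP. For `x ∈ N`,
`x = [fermi t θ]` with `F (fermi t θ) ≠ 0`, so `f (φ x) = f (e t, θ - ξ) ≠ 0` by MAP (4), and
`φ x ∈ strip (ℓ/2)`; so `φ` maps `N` into `strip (ℓ/2) ∩ {f ≠ 0}`. Conversely if `f(φ x) ≠ 0` then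
`x ∈ N`. Suppose that only finitely many nodal domains have compact closure; `|(φ x).1|` is bounded
on the closure of each, so there is `B` with `-B ≤ (φ x).1` for all `x` in any of them. Take
`t < -B` with `f(t,0) ≠ 0` and `comp f (ℓ/2) (t,0)` bounded. Let `x0 = [fermi (e t) ξ]` (so
`φ x0 = (t, 0)`), `D` its nodal domain. `φ '' D` is preconnected, contained in
`strip (ℓ/2) ∩ {f ≠ 0}` and contains `(t,0)`, hence contained in the component, so `(φ x).1` is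
bounded on `D`, and `closure D` is compact by CPT. But `x0 ∈ D` and `(φ x0).1 = t < -B`,
contradiction. -/
def S_nod : Prop := S_fer → S_map → S_cpt → ∀ (ℓ e ξ : ℝ), 0 < ℓ → (e = 1 ∨ e = -1) →
  ∀ f : ℝ × ℝ → ℝ, Continuous f → (∀ t θ, f (t, -θ) = f (t, θ)) → (∀ t θ, f (t, θ + ℓ) = f (t, θ)) →
  (∀ T0 : ℝ, ∃ t < T0, f (t, 0) ≠ 0 ∧ Bdd (comp f (ℓ / 2) (t, 0))) →
  ∀ F : ℍ → ℝ, (∀ t θ : ℝ, F (fermi t θ) = f (e * t, θ - ξ)) →
    {D : Set (Quotient (MulAction.orbitRel (cyl ℓ) ℍ)) |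
      IsNodalDomain (cyl ℓ) F D ∧ IsCompact (closure D)}.Infinite

/-- FINAL. Let `E z = B(s,s)/(4π) G ℓ s (e t) (θ - ξ)` where `t = arsinh(Re z/Im z)`,
`θ = log|z|`. (1) is LIM (with FER 2). (2) FER 1 and GSYM (periodicity). (3) Let
`c = B(s,s)/(4π) ≠ 0` (BETA), `f (t,θ) = Re (c G ℓ s t θ)`, continuous (GCONT), even and periodic
(GSYM). ALT and CNT give the hypotheses of TOPO with `H = ℓ/2`, and NOD concludes. -/
def S_final : Prop := ∀ (ℓ lam e ξ : ℝ), 0 < ℓ → 0 < lam → (e = 1 ∨ e = -1) →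
  ∃ E : ℍ → ℂ,
    (∀ z : ℍ, Tendsto (fun ρ : ℝ => (ρ : ℂ) ^ (-(1 / 2 + lam * Complex.I)) *
      resolventKernel (cyl ℓ) (1 / 2 + lam * Complex.I) z (funnelPt e ρ ξ)) (𝓝[>] 0) (𝓝 (E z))) ∧
    (∀ g ∈ cyl ℓ, ∀ z : ℍ, E (g • z) = E z) ∧
    {D : Set (Quotient (MulAction.orbitRel (cyl ℓ) ℍ)) |
      IsNodalDomain (cyl ℓ) (fun z => (E z).re) D ∧ IsCompact (closure D)}.Infinite

end Pool.Agent.Lib.MP_619567_an
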